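import Mathlib
import Pool.Agent.H84.PowDefs
import Pool.Agent.H84.ConsEx2

set_option autoImplicit false

namespace Pool.Agent.Results.MP_a60c23_gt.Counter

open Pool.Agent.H84.PowDefs

/-- There is a co-consonant T0 space whose lower power space is not co-consonant. -/
theorem result :
    ∃ (X : Type) (_ : TopologicalSpace X), T0Space X ∧ CoConsonant X ∧
      ¬ CoConsonant (LowerPow X) :=
  ⟨H84.ConsEx.X, inferInstance, inferInstance, H84.Cons.finCons_iff.2 H84.ConsEx.finCons_X,
    fun h => H84.ConsEx.not_consonant_lower IsClosed (fun _ a _ => a)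
      (H84.Cons.finCons_iff.1 h).consonant⟩

end Pool.Agent.Results.MP_a60c23_gt.Counter
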